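import Pool.Agent.H21.BB.BBL
import Pool.Agent.H64.XL.Defs

/-!
# [DIM X BBL] The case `ω = 1` of H21/BB/BBL (as in the towers `Tw` of H64/XL/Defs)
-/

set_option autoImplicit false

open Filter Topology Metric Set

namespace Pool.Agent.H21.BB

open Pool.Agent.H66.GEO (Bl BB)
open Pool.Agent.H64.XL (b1)

theorem b1_n (i : ℕ) : ‖b1 i‖ = 1 := by
  unfold b1
  exact norm_one

theorem bl1_lt {α x : ℂ} (hα : ‖α‖ < 1) (hx : ‖x‖ < 1) : ‖Bl 1 α x‖ < 1 := bl_lt norm_one hα hx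

theorem bb1_succ (α : ℕ → ℂ) (s : ℕ) (x : ℂ) : BB b1 α (s + 1) x = BB b1 α s (Bl 1 (α s) x) := rfl

theorem bb1_lt {α : ℕ → ℂ} {s : ℕ} (hα : ∀ i < s, ‖α i‖ < 1) {x : ℂ} (hx : ‖x‖ < 1) : ‖BB b1 α s x‖ < 1 :=
  bb_lt (fun i _ => b1_n i) hα hx

theorem bb1_d {α : ℕ → ℂ} {s : ℕ} (hα : ∀ i < s, ‖α i‖ < 1) : DifferentiableOn ℂ (BB b1 α s) (ball 0 1) :=
  bb_d (fun i _ => b1_n i) hα

private theorem cv1 {α : ℕ → ℂ} {s : ℕ} {th : ℝ} (hcv : ∀ i < s, ‖BB b1 α i (α i)‖ ≤ th) :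
    ∀ i < s, ‖BB b1 α i (b1 i * α i)‖ ≤ th := by
  intro i hi
  have h1 : b1 i * α i = α i := by
    unfold b1
    exact one_mul _
  rw [h1]
  exact hcv i hi

theorem al1_bd {α : ℕ → ℂ} {th : ℝ} (h0 : 0 ≤ th) (h1 : th < 1) {s : ℕ} (hα : ∀ i < s, ‖α i‖ < 1)
    (hcv : ∀ i < s, ‖BB b1 α i (α i)‖ ≤ th) : ∀ i < s, ‖α i‖ ≤ Th th i :=
  al_bd h0 h1 (fun i _ => b1_n i) hα (cv1 hcv)

theorem bb1_bd {α : ℕ → ℂ} {th r : ℝ} (h0 : 0 ≤ th) (h1 : th < 1) {s : ℕ} (hα : ∀ i < s, ‖α i‖ < 1)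
    (hcv : ∀ i < s, ‖BB b1 α i (α i)‖ ≤ th) (hr1 : r < 1) {x : ℂ} (hx : ‖x‖ < 1) (h : ‖BB b1 α s x‖ ≤ r) :
    ‖x‖ ≤ Rr th r s :=
  bb_bd h0 h1 (fun i _ => b1_n i) hα (cv1 hcv) hr1 hx h

theorem bb1_cpt {α : ℕ → ℂ} {th r : ℝ} (h0 : 0 ≤ th) (h1 : th < 1) {s : ℕ} (hα : ∀ i < s, ‖α i‖ < 1)
    (hcv : ∀ i < s, ‖BB b1 α i (α i)‖ ≤ th) (hr : 0 ≤ r) (hr1 : r < 1) :
    IsCompact {x : ℂ | x ∈ ball (0 : ℂ) 1 ∧ ‖BB b1 α s x‖ ≤ r} :=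
  bb_cpt h0 h1 (fun i _ => b1_n i) hα (cv1 hcv) hr hr1

theorem bb1_bdd {α : ℕ → ℂ} {th r : ℝ} (h0 : 0 ≤ th) (h1 : th < 1) {s : ℕ} (hα : ∀ i < s, ‖α i‖ < 1)
    (hcv : ∀ i < s, ‖BB b1 α i (α i)‖ ≤ th) (hr : 0 ≤ r) (hr1 : r < 1) {φ : ℂ → ℂ} (hφ : ContinuousOn φ (ball 0 1)) :
    Bornology.IsBounded (φ '' {x : ℂ | x ∈ ball (0 : ℂ) 1 ∧ ‖BB b1 α s x‖ ≤ r}) :=
  bb_bdd h0 h1 (fun i _ => b1_n i) hα (cv1 hcv) hr hr1 hφ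

theorem bb1_conn {α : ℕ → ℂ} {th r : ℝ} (hr : th < r) (h0 : 0 ≤ th) {s : ℕ} (hα : ∀ i < s, ‖α i‖ < 1)
    (hcv : ∀ i < s, ‖BB b1 α i (α i)‖ ≤ th) : IsPreconnected {x : ℂ | x ∈ ball (0 : ℂ) 1 ∧ ‖BB b1 α s x‖ < r} :=
  bb_conn hr h0 (fun i _ => b1_n i) hα (cv1 hcv)

/-- limits along a filter: the limit parameters satisfy the same bounds -/
theorem bb1_tend {ι : Type*} {F : Filter ι} {A : ι → ℕ → ℂ} {a : ℕ → ℂ} (s : ℕ) (ha : ∀ i < s, ‖a i‖ < 1)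
    (hA : ∀ i < s, Tendsto (fun n => A n i) F (𝓝 (a i))) {x : ι → ℂ} {x0 : ℂ} (hx : Tendsto x F (𝓝 x0))
    (hx0 : ‖x0‖ < 1) : Tendsto (fun n => BB b1 (A n) s (x n)) F (𝓝 (BB b1 a s x0)) :=
  bb_tend (W := fun _ => b1) s (fun i _ => b1_n i) ha (fun _ _ => tendsto_const_nhds) hA hx hx0

theorem bb1_loc {ι : Type*} {F : Filter ι} {A : ι → ℕ → ℂ} {a : ℕ → ℂ} (s : ℕ) (ha : ∀ i < s, ‖a i‖ < 1)
    (hA : ∀ i < s, Tendsto (fun n => A n i) F (𝓝 (a i))) :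
    TendstoLocallyUniformlyOn (fun n => BB b1 (A n) s) (BB b1 a s) F (ball 0 1) :=
  bb_loc (W := fun _ => b1) s (fun i _ => b1_n i) ha (fun _ _ => tendsto_const_nhds) hA

/-- existence of the limit parameters along an ultrafilter, with the bounds `‖a i‖ ≤ Th th i < 1` and the critical values in
the core -/
theorem al1_lim {ι : Type*} {F : Ultrafilter ι} {A : ι → ℕ → ℂ} {th : ℝ} (h0 : 0 ≤ th) (h1 : th < 1)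
    (hA : ∀ i : ℕ, ∀ᶠ n in (F : Filter ι), (∀ k ≤ i, ‖A n k‖ < 1) ∧ ∀ k ≤ i, ‖BB b1 (A n) k (A n k)‖ ≤ th) :
    ∃ a : ℕ → ℂ, (∀ i, Tendsto (fun n => A n i) F (𝓝 (a i))) ∧ (∀ i, ‖a i‖ ≤ Th th i ∧ ‖a i‖ < 1) ∧
      ∀ i, ‖BB b1 a i (a i)‖ ≤ th := by
  have hb : ∀ i, ∀ᶠ n in (F : Filter ι), A n i ∈ closedBall (0 : ℂ) (Th th i) := by
    intro i
    filter_upwards [hA i] with n hn
    rw [mem_closedBall_zero_iff]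
    exact al1_bd h0 h1 (s := i + 1) (fun k hk => hn.1 k (by omega)) (fun k hk => hn.2 k (by omega)) i (by omega)
  have hlim : ∀ i, ∃ a, ‖a‖ ≤ Th th i ∧ Tendsto (fun n => A n i) F (𝓝 a) := by
    intro i
    obtain ⟨a, ha, hle⟩ := (isCompact_closedBall (0 : ℂ) (Th th i)).ultrafilter_le_nhds (F.map fun n => A n i)
      (le_principal_iff.2 (hb i))
    exact ⟨a, mem_closedBall_zero_iff.1 ha, hle⟩
  choose a ha1 ha2 using hlim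
  have ha3 : ∀ i, ‖a i‖ < 1 := fun i => lt_of_le_of_lt (ha1 i) (th_bd h0 h1 i).2
  refine ⟨a, ha2, fun i => ⟨ha1 i, ha3 i⟩, fun i => ?_⟩
  have h2 := bb1_tend i (fun k _ => ha3 k) (fun k _ => ha2 k) (ha2 i) (ha3 i)
  refine le_of_tendsto h2.norm ?_
  filter_upwards [hA i] with n hn
  exact hn.2 i le_rfl

end Pool.Agent.H21.BB
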