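import Pool.Agent.H66.GEO.Defs

/-!
# [DIM X BBL] The Blaschke products `Bl`, `BB` of THEOREM GEO (MP_8f2e1c_an)

`bl_lt`, `bl_d`, `bb_lt`, `bb_d`: they map the disc holomorphically to itself. `bl_bd`: `‖Bl ω α x‖ ≤ ρ`, `‖α‖ ≤ A` gives
`‖x‖ ^ 2 ≤ (ρ + A) / (1 + ρ A)`. `Th`, `Rr`: the explicit bounds `‖α s‖ ≤ Th th s < 1` (`al_bd`) and
`‖BB s x‖ ≤ r → ‖x‖ ≤ Rr th r s < 1` (`bb_bd`) when the critical values are in the core (`‖BB i (ω i α i)‖ ≤ th`).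
`bb_conn`: `{‖BB s x‖ < r}` is preconnected. `bb_cpt`: `{‖BB s x‖ ≤ r}` is compact; `bb_bdd`: images of it under maps which are
continuous on the disc are bounded. `bb_tend`, `bb_loc`: continuity in the parameters, locally uniform in `x`.

PROOFS. With `u = x ^ 2`, `m = ‖u‖`, `a = ‖α‖`, `N = ‖u + α‖`, `D = ‖1 + conj α u‖`: `D ^ 2 - N ^ 2 = (1 - a ^ 2) (1 - m ^ 2)`, and
`(N (1 - a m)) ^ 2 - ((m - a) D) ^ 2 = 2 (Re (conj α u) + a m) (1 - m ^ 2) (1 - a ^ 2) ≥ 0`. Connectedness: `W` open, connected,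
`0 ∈ W` gives `{x | x ^ 2 ∈ W}` connected: if it is the union of the disjoint open sets `A ∋ 0`, `B`, then
`sq B = W ∩ sq (complement of A)` is open and closed in `W` and does not contain `0`, hence empty.
-/

set_option autoImplicit false

open Filter Topology Metric Set

namespace Pool.Agent.H21.BB

open Pool.Agent.H66.GEO (Bl BB)

theorem den_ne {α x : ℂ} (hα : ‖α‖ < 1) (hx : ‖x‖ < 1) : 1 + (starRingEnd ℂ) α * x ^ 2 ≠ 0 := by
  intro h
  have h1 : (starRingEnd ℂ) α * x ^ 2 = -1 := by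
    rw [eq_neg_iff_add_eq_zero, add_comm]
    exact h
  have h2 : ‖(starRingEnd ℂ) α * x ^ 2‖ = 1 := by rw [h1, norm_neg, norm_one]
  rw [norm_mul, RCLike.norm_conj, norm_pow] at h2
  have h3 : ‖x‖ ^ 2 ≤ 1 := pow_le_one₀ (norm_nonneg _) hx.le
  have h4 : ‖α‖ * ‖x‖ ^ 2 ≤ ‖α‖ * 1 := mul_le_mul_of_nonneg_left h3 (norm_nonneg _)
  linarith

private theorem id1 (u α : ℂ) : ‖1 + (starRingEnd ℂ) α * u‖ ^ 2 - ‖u + α‖ ^ 2 = (1 - ‖α‖ ^ 2) * (1 - ‖u‖ ^ 2) := by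
  simp only [Complex.sq_norm, Complex.normSq_apply, Complex.add_re, Complex.add_im, Complex.mul_re, Complex.mul_im,
    Complex.conj_re, Complex.conj_im, Complex.one_re, Complex.one_im]
  ring

private theorem id2 (u α : ℂ) : ‖u + α‖ ^ 2 = ‖u‖ ^ 2 + ‖α‖ ^ 2 + 2 * ((starRingEnd ℂ) α * u).re := by
  simp only [Complex.sq_norm, Complex.normSq_apply, Complex.add_re, Complex.add_im, Complex.mul_re,
    Complex.conj_re, Complex.conj_im]
  ring

private theorem re_ge (u α : ℂ) : -(‖α‖ * ‖u‖) ≤ ((starRingEnd ℂ) α * u).re := by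
  have h1 := Complex.abs_re_le_norm ((starRingEnd ℂ) α * u)
  rw [norm_mul, RCLike.norm_conj] at h1
  exact (abs_le.1 h1).1

theorem bl_lt {ω α x : ℂ} (hω : ‖ω‖ = 1) (hα : ‖α‖ < 1) (hx : ‖x‖ < 1) : ‖Bl ω α x‖ < 1 := by
  have h0 := den_ne hα hx
  have h1 := id1 (x ^ 2) α
  have h2 : 0 < ‖1 + (starRingEnd ℂ) α * x ^ 2‖ := norm_pos_iff.2 h0
  unfold Bl
  rw [norm_div, norm_mul, hω, one_mul, div_lt_one h2]
  have h3 : ‖x ^ 2‖ < 1 := by
    rw [norm_pow]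
    exact pow_lt_one₀ (norm_nonneg _) hx (by norm_num)
  have h4 : 0 < (1 - ‖α‖ ^ 2) * (1 - ‖x ^ 2‖ ^ 2) := by
    apply mul_pos
    · have := pow_lt_one₀ (norm_nonneg α) hα (two_ne_zero)
      linarith
    · have := pow_lt_one₀ (norm_nonneg (x ^ 2)) h3 (two_ne_zero)
      linarith
  have h5 : ‖x ^ 2 + α‖ ^ 2 < ‖1 + (starRingEnd ℂ) α * x ^ 2‖ ^ 2 := by linarith
  exact lt_of_pow_lt_pow_left₀ 2 h2.le h5

theorem bl_d {ω α : ℂ} (hα : ‖α‖ < 1) : DifferentiableOn ℂ (Bl ω α) (ball 0 1) := by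
  intro x hx
  rw [mem_ball_zero_iff] at hx
  unfold Bl
  apply DifferentiableAt.differentiableWithinAt
  apply DifferentiableAt.div
  · fun_prop
  · fun_prop
  · exact den_ne hα hx

/-- the estimate of Schwarz and Pick for `Bl` -/
theorem bl_bd {ω α x : ℂ} {A ρ : ℝ} (hω : ‖ω‖ = 1) (hα : ‖α‖ ≤ A) (hA : A < 1) (hx : ‖x‖ < 1) (hρ : ρ < 1)
    (h : ‖Bl ω α x‖ ≤ ρ) : ‖x‖ ≤ √((ρ + A) / (1 + ρ * A)) := by
  have hα1 : ‖α‖ < 1 := lt_of_le_of_lt hα hA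
  have h0 := den_ne hα1 hx
  obtain ⟨u, hu⟩ : ∃ u : ℂ, u = x ^ 2 := ⟨_, rfl⟩
  have hum : ‖u‖ = ‖x‖ ^ 2 := by rw [hu, norm_pow]
  have hu1 : ‖u‖ < 1 := by
    rw [hum]
    exact pow_lt_one₀ (norm_nonneg _) hx (by norm_num)
  rw [← hu] at h0
  have hρ0 : 0 ≤ ρ := (norm_nonneg _).trans h
  have hA0 : 0 ≤ A := (norm_nonneg _).trans hα
  have hD : 0 < ‖1 + (starRingEnd ℂ) α * u‖ := norm_pos_iff.2 h0
  have h1 : ‖u + α‖ ≤ ρ * ‖1 + (starRingEnd ℂ) α * u‖ := by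
    unfold Bl at h
    rw [← hu, norm_div, norm_mul, hω, one_mul, div_le_iff₀ hD] at h
    exact h
  have e1 := id1 u α
  have e2 := id2 u α
  have e3 := re_ge u α
  have hu0 := norm_nonneg u
  have hα0 := norm_nonneg α
  have ham : ‖α‖ * ‖u‖ < 1 := by nlinarith
  have hN0 := norm_nonneg (u + α)
  have key : (‖u‖ - ‖α‖) * ‖1 + (starRingEnd ℂ) α * u‖ ≤ ‖u + α‖ * (1 - ‖α‖ * ‖u‖) := by
    generalize ‖u + α‖ = N at *
    generalize ‖1 + (starRingEnd ℂ) α * u‖ = D at *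
    generalize ((starRingEnd ℂ) α * u).re = τ at *
    generalize ‖u‖ = m at *
    generalize ‖α‖ = a at *
    have h5 : ((m - a) * D) ^ 2 ≤ (N * (1 - a * m)) ^ 2 := by
      have h6 : (N * (1 - a * m)) ^ 2 - ((m - a) * D) ^ 2 = 2 * (τ + a * m) * ((1 - m ^ 2) * (1 - a ^ 2)) := by
        have h7 : D ^ 2 = m ^ 2 + a ^ 2 + 2 * τ + (1 - a ^ 2) * (1 - m ^ 2) := by linarith
        rw [mul_pow, mul_pow, h7, e2]
        ring
      have h8 : 0 ≤ 1 - m ^ 2 := by nlinarith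
      have h9 : 0 ≤ 1 - a ^ 2 := by nlinarith
      have h10 : 0 ≤ 2 * (τ + a * m) * ((1 - m ^ 2) * (1 - a ^ 2)) :=
        mul_nonneg (by linarith) (mul_nonneg h8 h9)
      linarith
    exact (abs_le_of_sq_le_sq' h5 (mul_nonneg hN0 (by linarith))).2
  have h2 : ‖u‖ - ‖α‖ ≤ ρ * (1 - ‖α‖ * ‖u‖) := by
    have h3 : (‖u‖ - ‖α‖) * ‖1 + (starRingEnd ℂ) α * u‖ ≤ ρ * (1 - ‖α‖ * ‖u‖) * ‖1 + (starRingEnd ℂ) α * u‖ := by
      refine key.trans ?_
      have h4 := mul_le_mul_of_nonneg_right h1 (show 0 ≤ 1 - ‖α‖ * ‖u‖ by linarith)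
      linarith
    exact le_of_mul_le_mul_right h3 hD
  apply Real.le_sqrt_of_sq_le
  rw [← hum, le_div_iff₀ (by positivity)]
  have h6 : (A - ‖α‖) * (ρ * ‖u‖ - 1) ≤ 0 := by
    apply mul_nonpos_of_nonneg_of_nonpos
    · linarith
    · nlinarith
  nlinarith

variable {ω α : ℕ → ℂ}

theorem bb_lt {s : ℕ} (hω : ∀ i < s, ‖ω i‖ = 1) (hα : ∀ i < s, ‖α i‖ < 1) {x : ℂ} (hx : ‖x‖ < 1) :
    ‖BB ω α s x‖ < 1 := by
  induction s generalizing x with
  | zero => exact hx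
  | succ s ih =>
    show ‖BB ω α s (Bl (ω s) (α s) x)‖ < 1
    exact ih (fun i hi => hω i (by omega)) (fun i hi => hα i (by omega)) (bl_lt (hω s (by omega)) (hα s (by omega)) hx)

theorem bb_d {s : ℕ} (hω : ∀ i < s, ‖ω i‖ = 1) (hα : ∀ i < s, ‖α i‖ < 1) :
    DifferentiableOn ℂ (BB ω α s) (ball 0 1) := by
  induction s with
  | zero => exact differentiableOn_id
  | succ s ih =>
    have h1 := ih (fun i hi => hω i (by omega)) (fun i hi => hα i (by omega))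
    show DifferentiableOn ℂ (fun x => BB ω α s (Bl (ω s) (α s) x)) (ball 0 1)
    refine h1.comp (bl_d (hα s (by omega))) fun x hx => ?_
    rw [mem_ball_zero_iff] at hx ⊢
    exact bl_lt (hω s (by omega)) (hα s (by omega)) hx

theorem bl_neg (ω α x : ℂ) : Bl ω α (-x) = Bl ω α x := by
  unfold Bl
  rw [neg_sq]

theorem bl_zero (ω α : ℂ) : Bl ω α 0 = ω * α := by
  unfold Bl
  simp

/-- the bounds for `‖α s‖` -/
noncomputable def Th (th : ℝ) : ℕ → ℝ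
  | 0 => th
  | s + 1 => √((Th th s + Th th s) / (1 + Th th s * Th th s))

/-- the bounds for `‖x‖`, `‖BB s x‖ ≤ r` -/
noncomputable def Rr (th r : ℝ) : ℕ → ℝ
  | 0 => r
  | s + 1 => √((Rr th r s + Th th s) / (1 + Rr th r s * Th th s))

private theorem sq_lt {a b : ℝ} (ha : 0 ≤ a) (ha1 : a < 1) (hb : 0 ≤ b) (hb1 : b < 1) :
    √((a + b) / (1 + a * b)) < 1 := by
  rw [Real.sqrt_lt' one_pos, one_pow, div_lt_one (by positivity)]
  nlinarith

theorem th_bd {th : ℝ} (h0 : 0 ≤ th) (h1 : th < 1) (s : ℕ) : 0 ≤ Th th s ∧ Th th s < 1 := by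
  induction s with
  | zero => exact ⟨h0, h1⟩
  | succ s ih => exact ⟨Real.sqrt_nonneg _, sq_lt ih.1 ih.2 ih.1 ih.2⟩

theorem rr_bd {th r : ℝ} (h0 : 0 ≤ th) (h1 : th < 1) (hr : 0 ≤ r) (hr1 : r < 1) (s : ℕ) :
    0 ≤ Rr th r s ∧ Rr th r s < 1 := by
  induction s with
  | zero => exact ⟨hr, hr1⟩
  | succ s ih => exact ⟨Real.sqrt_nonneg _, sq_lt ih.1 ih.2 (th_bd h0 h1 s).1 (th_bd h0 h1 s).2⟩

theorem rr_self (th : ℝ) (s : ℕ) : Rr th th s = Th th s := by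
  induction s with
  | zero => rfl
  | succ s ih =>
    show √((Rr th th s + Th th s) / (1 + Rr th th s * Th th s)) = √((Th th s + Th th s) / (1 + Th th s * Th th s))
    rw [ih]

/-- both bounds, by induction -/
private theorem both {th : ℝ} (h0 : 0 ≤ th) (h1 : th < 1) (s : ℕ) (hω : ∀ i < s, ‖ω i‖ = 1) (hα : ∀ i < s, ‖α i‖ < 1)
    (hcv : ∀ i < s, ‖BB ω α i (ω i * α i)‖ ≤ th) :
    (∀ i < s, ‖α i‖ ≤ Th th i) ∧ ∀ (r : ℝ) (x : ℂ), 0 ≤ r → r < 1 → ‖x‖ < 1 → ‖BB ω α s x‖ ≤ r → ‖x‖ ≤ Rr th r s := by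
  induction s with
  | zero => exact ⟨fun i hi => absurd hi (by omega), fun r x _ _ _ h => h⟩
  | succ s ih =>
    obtain ⟨ih1, ih2⟩ := ih (fun i hi => hω i (by omega)) (fun i hi => hα i (by omega)) fun i hi => hcv i (by omega)
    have hs : ‖α s‖ ≤ Th th s := by
      have h2 : ‖ω s * α s‖ < 1 := by
        rw [norm_mul, hω s (by omega), one_mul]
        exact hα s (by omega)
      have h3 := ih2 th (ω s * α s) h0 h1 h2 (hcv s (by omega))
      rw [norm_mul, hω s (by omega), one_mul, rr_self] at h3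
      exact h3
    refine ⟨fun i hi => ?_, fun r x hr hr1 hx h => ?_⟩
    · rcases Nat.lt_succ_iff_lt_or_eq.1 hi with h2 | h2
      · exact ih1 i h2
      · rw [h2]
        exact hs
    · have h2 : ‖Bl (ω s) (α s) x‖ < 1 := bl_lt (hω s (by omega)) (hα s (by omega)) hx
      have h3 := ih2 r (Bl (ω s) (α s) x) hr hr1 h2 h
      exact bl_bd (hω s (by omega)) hs (th_bd h0 h1 s).2 hx (rr_bd h0 h1 hr hr1 s).2 h3

theorem al_bd {th : ℝ} (h0 : 0 ≤ th) (h1 : th < 1) {s : ℕ} (hω : ∀ i < s, ‖ω i‖ = 1) (hα : ∀ i < s, ‖α i‖ < 1)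
    (hcv : ∀ i < s, ‖BB ω α i (ω i * α i)‖ ≤ th) : ∀ i < s, ‖α i‖ ≤ Th th i := (both h0 h1 s hω hα hcv).1

theorem bb_bd {th r : ℝ} (h0 : 0 ≤ th) (h1 : th < 1) {s : ℕ} (hω : ∀ i < s, ‖ω i‖ = 1) (hα : ∀ i < s, ‖α i‖ < 1)
    (hcv : ∀ i < s, ‖BB ω α i (ω i * α i)‖ ≤ th) (hr1 : r < 1) {x : ℂ} (hx : ‖x‖ < 1)
    (h : ‖BB ω α s x‖ ≤ r) : ‖x‖ ≤ Rr th r s := (both h0 h1 s hω hα hcv).2 r x ((norm_nonneg _).trans h) hr1 hx h

/-- the compact core -/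
theorem bb_cpt {th r : ℝ} (h0 : 0 ≤ th) (h1 : th < 1) {s : ℕ} (hω : ∀ i < s, ‖ω i‖ = 1) (hα : ∀ i < s, ‖α i‖ < 1)
    (hcv : ∀ i < s, ‖BB ω α i (ω i * α i)‖ ≤ th) (hr : 0 ≤ r) (hr1 : r < 1) :
    IsCompact {x : ℂ | x ∈ ball (0 : ℂ) 1 ∧ ‖BB ω α s x‖ ≤ r} := by
  have hR := rr_bd h0 h1 hr hr1 s
  have he : {x : ℂ | x ∈ ball (0 : ℂ) 1 ∧ ‖BB ω α s x‖ ≤ r} =
      closedBall (0 : ℂ) (Rr th r s) ∩ BB ω α s ⁻¹' closedBall 0 r := by
    ext x
    constructor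
    · rintro ⟨hx, h⟩
      refine ⟨?_, ?_⟩
      · rw [mem_closedBall_zero_iff]
        exact bb_bd h0 h1 hω hα hcv hr1 (mem_ball_zero_iff.1 hx) h
      · rw [mem_preimage, mem_closedBall_zero_iff]
        exact h
    · rintro ⟨hx, h⟩
      rw [mem_closedBall_zero_iff] at hx
      rw [mem_preimage, mem_closedBall_zero_iff] at h
      exact ⟨mem_ball_zero_iff.2 (lt_of_le_of_lt hx hR.2), h⟩
  rw [he]
  have hc : ContinuousOn (BB ω α s) (closedBall 0 (Rr th r s)) :=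
    (bb_d hω hα).continuousOn.mono (closedBall_subset_ball hR.2)
  exact (isCompact_closedBall _ _).of_isClosed_subset (hc.preimage_isClosed_of_isClosed isClosed_closedBall
    isClosed_closedBall) inter_subset_left

theorem bb_bdd {th r : ℝ} (h0 : 0 ≤ th) (h1 : th < 1) {s : ℕ} (hω : ∀ i < s, ‖ω i‖ = 1) (hα : ∀ i < s, ‖α i‖ < 1)
    (hcv : ∀ i < s, ‖BB ω α i (ω i * α i)‖ ≤ th) (hr : 0 ≤ r) (hr1 : r < 1) {φ : ℂ → ℂ}
    (hφ : ContinuousOn φ (ball 0 1)) :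
    Bornology.IsBounded (φ '' {x : ℂ | x ∈ ball (0 : ℂ) 1 ∧ ‖BB ω α s x‖ ≤ r}) :=
  ((bb_cpt h0 h1 hω hα hcv hr hr1).image_of_continuousOn (hφ.mono fun _ hx => hx.1)).isBounded

/-- the map `x ↦ x ^ 2` is closed -/
private theorem sq_closed {K : Set ℂ} (hK : IsClosed K) : IsClosed ((fun x : ℂ => x ^ 2) '' K) := by
  have h1 : IsProperMap (fun x : ℂ => x ^ 2) := by
    rw [isProperMap_iff_tendsto_cocompact]
    refine ⟨by fun_prop, ?_⟩
    rw [← Metric.cobounded_eq_cocompact, ← comap_norm_atTop, tendsto_comap_iff]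
    have h2 : (norm ∘ fun x : ℂ => x ^ 2) = fun x : ℂ => ‖x‖ ^ 2 := by
      funext x
      simp
    rw [h2]
    exact (tendsto_pow_atTop (by norm_num)).comp tendsto_comap
  exact h1.isClosedMap K hK

private theorem sq_open {K : Set ℂ} (hK : IsOpen K) : IsOpen ((fun x : ℂ => x ^ 2) '' K) := by
  have h1 : IsOpenMap (fun x : ℂ => x ^ 2) := by
    have h2 : AnalyticOnNhd ℂ (fun x : ℂ => x ^ 2) univ := fun x _ => by fun_prop
    rcases h2.is_constant_or_isOpen isPreconnected_univ with ⟨w, hw⟩ | h3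
    · exfalso
      have h4 : (0 : ℂ) ^ 2 = w := hw 0 (mem_univ _)
      have h5 : (1 : ℂ) ^ 2 = w := hw 1 (mem_univ _)
      rw [← h4] at h5
      norm_num at h5
    · intro s hs
      exact h3 s (subset_univ _) hs
  exact h1 K hK

/-- square roots of connected open sets containing `0` -/
theorem sq_conn {W : Set ℂ} (hW : IsOpen W) (hc : IsPreconnected W) (h0 : (0 : ℂ) ∈ W) :
    IsPreconnected {x : ℂ | x ^ 2 ∈ W} := by
  have hs : IsOpen {x : ℂ | x ^ 2 ∈ W} := hW.preimage (by fun_prop)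
  -- a part which does not contain `0` is empty
  have key : ∀ u v : Set ℂ, IsOpen u → IsOpen v → {x : ℂ | x ^ 2 ∈ W} ⊆ u ∪ v → {x : ℂ | x ^ 2 ∈ W} ∩ (u ∩ v) = ∅ →
      (0 : ℂ) ∈ u → {x : ℂ | x ^ 2 ∈ W} ⊆ u := by
    intro u v hu hv hcov hdis h0u x hx
    by_contra hxu
    have hxv : x ∈ v := (hcov hx).resolve_left hxu
    have hA : IsOpen ({x : ℂ | x ^ 2 ∈ W} ∩ u) := hs.inter hu
    have hB : IsOpen ({x : ℂ | x ^ 2 ∈ W} ∩ v) := hs.inter hv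
    have hBo := sq_open hB
    have hAc := sq_closed hA.isClosed_compl
    have h1 : W ⊆ (fun x : ℂ => x ^ 2) '' ({x : ℂ | x ^ 2 ∈ W} ∩ v) ∪
        ((fun x : ℂ => x ^ 2) '' ({x : ℂ | x ^ 2 ∈ W} ∩ u)ᶜ)ᶜ := by
      intro w hw
      by_cases h2 : w ∈ (fun x : ℂ => x ^ 2) '' ({x : ℂ | x ^ 2 ∈ W} ∩ u)ᶜ
      · left
        obtain ⟨y, hy, rfl⟩ := h2
        have hyW : y ∈ {x : ℂ | x ^ 2 ∈ W} := hw
        refine ⟨y, ⟨hyW, (hcov hyW).resolve_left fun h3 => hy ⟨hyW, h3⟩⟩, rfl⟩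
      · right
        exact h2
    have h2 : (W ∩ ((fun x : ℂ => x ^ 2) '' ({x : ℂ | x ^ 2 ∈ W} ∩ v))).Nonempty :=
      ⟨x ^ 2, hx, ⟨x, ⟨hx, hxv⟩, rfl⟩⟩
    have h3 : (W ∩ (((fun x : ℂ => x ^ 2) '' ({x : ℂ | x ^ 2 ∈ W} ∩ u)ᶜ)ᶜ)).Nonempty := by
      refine ⟨0, h0, ?_⟩
      rintro ⟨y, hy, hy0⟩
      have hy1 : y = 0 := by simpa using hy0
      apply hy
      rw [hy1]
      refine ⟨?_, h0u⟩
      show (0 : ℂ) ^ 2 ∈ W
      simpa using h0
    obtain ⟨w, hw, ⟨y, ⟨hyW, hyv⟩, hyw⟩, hw2⟩ := hc _ _ hBo hAc.isOpen_compl h1 h2 h3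
    apply hw2
    refine ⟨y, fun h4 => ?_, hyw⟩
    have h5 : y ∈ {x : ℂ | x ^ 2 ∈ W} ∩ (u ∩ v) := ⟨hyW, h4.2, hyv⟩
    rw [hdis] at h5
    exact h5
  rw [isPreconnected_iff_subset_of_disjoint]
  intro u v hu hv hcov hdis
  have h00 : (0 : ℂ) ∈ {x : ℂ | x ^ 2 ∈ W} := by
    show (0 : ℂ) ^ 2 ∈ W
    simpa using h0
  rcases hcov h00 with h1 | h1
  · exact Or.inl (key u v hu hv hcov hdis h1)
  · exact Or.inr (key v u hv hu (by rw [union_comm]; exact hcov) (by rw [inter_comm v u]; exact hdis) h1)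

/-- the automorphism of the disc in `Bl` -/
private noncomputable def Mo (ω α u : ℂ) : ℂ := ω * (u + α) / (1 + (starRingEnd ℂ) α * u)

private noncomputable def Mi (ω α v : ℂ) : ℂ := ((starRingEnd ℂ) ω * v - α) / (1 - (starRingEnd ℂ) α * ((starRingEnd ℂ) ω * v))

private theorem den1 {α u : ℂ} (hα : ‖α‖ < 1) (hu : ‖u‖ < 1) : 1 + (starRingEnd ℂ) α * u ≠ 0 := by
  intro h
  have h1 : (starRingEnd ℂ) α * u = -1 := by
    rw [eq_neg_iff_add_eq_zero, add_comm]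
    exact h
  have h2 : ‖(starRingEnd ℂ) α * u‖ = 1 := by rw [h1, norm_neg, norm_one]
  rw [norm_mul, RCLike.norm_conj] at h2
  have h4 : ‖α‖ * ‖u‖ ≤ ‖α‖ * 1 := mul_le_mul_of_nonneg_left hu.le (norm_nonneg _)
  linarith

private theorem mo_lt {ω α u : ℂ} (hω : ‖ω‖ = 1) (hα : ‖α‖ < 1) (hu : ‖u‖ < 1) : ‖Mo ω α u‖ < 1 := by
  have h0 := den1 hα hu
  have h1 := id1 u α
  have h2 : 0 < ‖1 + (starRingEnd ℂ) α * u‖ := norm_pos_iff.2 h0
  unfold Mo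
  rw [norm_div, norm_mul, hω, one_mul, div_lt_one h2]
  have h4 : 0 < (1 - ‖α‖ ^ 2) * (1 - ‖u‖ ^ 2) := by
    apply mul_pos
    · have := pow_lt_one₀ (norm_nonneg α) hα (two_ne_zero)
      linarith
    · have := pow_lt_one₀ (norm_nonneg u) hu (two_ne_zero)
      linarith
  exact lt_of_pow_lt_pow_left₀ 2 h2.le (by linarith)

private theorem cn {ω : ℂ} (hω : ‖ω‖ = 1) : (starRingEnd ℂ) ω * ω = 1 := by
  rw [← Complex.normSq_eq_conj_mul_self, Complex.normSq_eq_norm_sq, hω]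
  norm_num

private theorem mi_eq (ω α v : ℂ) : Mi ω α v = Mo 1 (-α) ((starRingEnd ℂ) ω * v) := by
  unfold Mi Mo
  rw [map_neg]
  congr 1 <;> ring

private theorem mi_lt {ω α v : ℂ} (hω : ‖ω‖ = 1) (hα : ‖α‖ < 1) (hv : ‖v‖ < 1) : ‖Mi ω α v‖ < 1 := by
  rw [mi_eq]
  refine mo_lt (by simp) (by simpa using hα) ?_
  rw [norm_mul, RCLike.norm_conj, hω, one_mul]
  exact hv

private theorem mo_mi {ω α v : ℂ} (hω : ‖ω‖ = 1) (hα : ‖α‖ < 1) (hv : ‖v‖ < 1) : Mo ω α (Mi ω α v) = v := by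
  have hc := cn hω
  have hw : ‖(starRingEnd ℂ) ω * v‖ < 1 := by
    rw [norm_mul, RCLike.norm_conj, hω, one_mul]
    exact hv
  have h1 : 1 - (starRingEnd ℂ) α * ((starRingEnd ℂ) ω * v) ≠ 0 := by
    have h2 := den1 (α := -α) (by simpa using hα) hw
    rw [map_neg] at h2
    intro h3
    apply h2
    rw [← h3]
    ring
  have h2 : 1 + (starRingEnd ℂ) α * Mi ω α v ≠ 0 := den1 hα (mi_lt hω hα hv)
  have hM : Mi ω α v * (1 - (starRingEnd ℂ) α * ((starRingEnd ℂ) ω * v)) = (starRingEnd ℂ) ω * v - α := by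
    unfold Mi
    rw [div_mul_cancel₀ _ h1]
  unfold Mo
  rw [div_eq_iff h2]
  apply mul_right_cancel₀ h1
  linear_combination (ω - v * (starRingEnd ℂ) α) * hM + v * (1 - α * (starRingEnd ℂ) α) * hc

private theorem mi_mo {ω α u : ℂ} (hω : ‖ω‖ = 1) (hα : ‖α‖ < 1) (hu : ‖u‖ < 1) : Mi ω α (Mo ω α u) = u := by
  have hc := cn hω
  have h1 := den1 hα hu
  have h2 : (starRingEnd ℂ) ω * Mo ω α u = (u + α) / (1 + (starRingEnd ℂ) α * u) := by
    unfold Mo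
    rw [mul_div_assoc', ← mul_assoc, hc, one_mul]
  have hw : ‖(starRingEnd ℂ) ω * Mo ω α u‖ < 1 := by
    rw [norm_mul, RCLike.norm_conj, hω, one_mul]
    exact mo_lt hω hα hu
  have h3 : 1 - (starRingEnd ℂ) α * ((starRingEnd ℂ) ω * Mo ω α u) ≠ 0 := by
    have h2 := den1 (α := -α) (by simpa using hα) hw
    rw [map_neg] at h2
    intro h3
    apply h2
    rw [← h3]
    ring
  have hM : (starRingEnd ℂ) ω * Mo ω α u * (1 + (starRingEnd ℂ) α * u) = u + α := by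
    rw [h2, div_mul_cancel₀ _ h1]
  unfold Mi
  rw [div_eq_iff h3]
  apply mul_right_cancel₀ h1
  linear_combination (1 + u * (starRingEnd ℂ) α) * hM

private theorem mo_d {ω α : ℂ} (hα : ‖α‖ < 1) : DifferentiableOn ℂ (Mo ω α) (ball 0 1) := by
  intro x hx
  rw [mem_ball_zero_iff] at hx
  unfold Mo
  apply DifferentiableAt.differentiableWithinAt
  apply DifferentiableAt.div
  · fun_prop
  · fun_prop
  · exact den1 hα hx

private theorem mi_c {ω α : ℂ} (hω : ‖ω‖ = 1) (hα : ‖α‖ < 1) : ContinuousOn (Mi ω α) (ball 0 1) := by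
  have h1 : Mi ω α = fun v => Mo 1 (-α) ((starRingEnd ℂ) ω * v) := by
    funext v
    exact mi_eq ω α v
  rw [h1]
  refine (mo_d (ω := 1) (α := -α) (by simpa using hα)).continuousOn.comp (by fun_prop) fun v hv => ?_
  rw [mem_ball_zero_iff] at hv ⊢
  rw [norm_mul, RCLike.norm_conj, hω, one_mul]
  exact hv

/-- the sets `{‖BB s x‖ < r}` are connected -/
theorem bb_conn {th r : ℝ} (hr : th < r) (h0 : 0 ≤ th) {s : ℕ} (hω : ∀ i < s, ‖ω i‖ = 1)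
    (hα : ∀ i < s, ‖α i‖ < 1) (hcv : ∀ i < s, ‖BB ω α i (ω i * α i)‖ ≤ th) :
    IsPreconnected {x : ℂ | x ∈ ball (0 : ℂ) 1 ∧ ‖BB ω α s x‖ < r} := by
  induction s with
  | zero =>
    have h1 : {x : ℂ | x ∈ ball (0 : ℂ) 1 ∧ ‖BB ω α 0 x‖ < r} = ball 0 1 ∩ ball 0 r := by
      ext x
      show x ∈ ball (0 : ℂ) 1 ∧ ‖x‖ < r ↔ _
      rw [mem_inter_iff, mem_ball_zero_iff (r := r)]
    rw [h1]
    exact ((convex_ball _ _).inter (convex_ball _ _)).isPreconnected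
  | succ s ih =>
    have hω' : ∀ i < s, ‖ω i‖ = 1 := fun i hi => hω i (by omega)
    have hα' : ∀ i < s, ‖α i‖ < 1 := fun i hi => hα i (by omega)
    have h1 := ih hω' hα' fun i hi => hcv i (by omega)
    have hωs := hω s (by omega)
    have hαs := hα s (by omega)
    obtain ⟨O, hO⟩ : ∃ O : Set ℂ, O = {x : ℂ | x ∈ ball (0 : ℂ) 1 ∧ ‖BB ω α s x‖ < r} := ⟨_, rfl⟩
    rw [← hO] at h1
    -- `W = Mi '' O`
    have hOo : IsOpen O := by
      have h2 : O = ball (0 : ℂ) 1 ∩ BB ω α s ⁻¹' ball 0 r := by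
        rw [hO]
        ext x
        rw [mem_inter_iff, mem_preimage, mem_ball_zero_iff (r := r)]
        rfl
      rw [h2]
      exact (bb_d hω' hα').continuousOn.isOpen_inter_preimage isOpen_ball isOpen_ball
    have hOs : O ⊆ ball 0 1 := by
      rw [hO]
      exact fun x hx => hx.1
    have hW : Mi (ω s) (α s) '' O = ball 0 1 ∩ Mo (ω s) (α s) ⁻¹' O := by
      ext u
      constructor
      · rintro ⟨v, hv, rfl⟩
        have hv1 := mem_ball_zero_iff.1 (hOs hv)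
        refine ⟨mem_ball_zero_iff.2 (mi_lt hωs hαs hv1), ?_⟩
        rw [mem_preimage, mo_mi hωs hαs hv1]
        exact hv
      · rintro ⟨hu, hu2⟩
        exact ⟨_, hu2, mi_mo hωs hαs (mem_ball_zero_iff.1 hu)⟩
    have hWo : IsOpen (Mi (ω s) (α s) '' O) := by
      rw [hW]
      exact (mo_d hαs).continuousOn.isOpen_inter_preimage isOpen_ball hOo
    have hWc : IsPreconnected (Mi (ω s) (α s) '' O) := h1.image _ ((mi_c hωs hαs).mono hOs)
    have hW0 : (0 : ℂ) ∈ Mi (ω s) (α s) '' O := by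
      rw [hW]
      refine ⟨mem_ball_self one_pos, ?_⟩
      have h3 : Mo (ω s) (α s) 0 = ω s * α s := by
        unfold Mo
        simp
      rw [mem_preimage, h3, hO]
      refine ⟨?_, lt_of_le_of_lt (hcv s (by omega)) hr⟩
      rw [mem_ball_zero_iff, norm_mul, hωs, one_mul]
      exact hαs
    have h4 := sq_conn hWo hWc hW0
    have h5 : {x : ℂ | x ∈ ball (0 : ℂ) 1 ∧ ‖BB ω α (s + 1) x‖ < r} = {x : ℂ | x ^ 2 ∈ Mi (ω s) (α s) '' O} := by
      rw [hW, hO]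
      ext x
      constructor
      · rintro ⟨hx, hx2⟩
        have hx1 := mem_ball_zero_iff.1 hx
        have hx3 : ‖x ^ 2‖ < 1 := by
          rw [norm_pow]
          exact pow_lt_one₀ (norm_nonneg _) hx1 (by norm_num)
        exact ⟨mem_ball_zero_iff.2 hx3, mem_ball_zero_iff.2 (mo_lt hωs hαs hx3), hx2⟩
      · rintro ⟨hx, hx2⟩
        have hx3 := mem_ball_zero_iff.1 hx
        rw [norm_pow] at hx3
        have hx1 : ‖x‖ < 1 := by
          by_contra hcon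
          rw [not_lt] at hcon
          have := one_le_pow₀ hcon (n := 2)
          linarith
        exact ⟨mem_ball_zero_iff.2 hx1, hx2.2⟩
    rw [h5]
    exact h4

/-- joint continuity in the parameters and the variable -/
theorem bb_tend {ι : Type*} {F : Filter ι} {W A : ι → ℕ → ℂ} {w a : ℕ → ℂ} (s : ℕ) (hw : ∀ i < s, ‖w i‖ = 1)
    (ha : ∀ i < s, ‖a i‖ < 1) (hW : ∀ i < s, Tendsto (fun n => W n i) F (𝓝 (w i)))
    (hA : ∀ i < s, Tendsto (fun n => A n i) F (𝓝 (a i))) {x : ι → ℂ} {x0 : ℂ} (hx : Tendsto x F (𝓝 x0))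
    (hx0 : ‖x0‖ < 1) : Tendsto (fun n => BB (W n) (A n) s (x n)) F (𝓝 (BB w a s x0)) := by
  induction s generalizing x x0 with
  | zero => exact hx
  | succ s ih =>
    show Tendsto (fun n => BB (W n) (A n) s (Bl (W n s) (A n s) (x n))) F (𝓝 (BB w a s (Bl (w s) (a s) x0)))
    refine ih (fun i hi => hw i (by omega)) (fun i hi => ha i (by omega)) (fun i hi => hW i (by omega))
      (fun i hi => hA i (by omega)) ?_ (bl_lt (hw s (by omega)) (ha s (by omega)) hx0)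
    unfold Bl
    have h1 := hW s (by omega)
    have h2 := hA s (by omega)
    have h3 : Tendsto (fun n => (starRingEnd ℂ) (A n s)) F (𝓝 ((starRingEnd ℂ) (a s))) :=
      (Complex.continuous_conj.tendsto _).comp h2
    exact (h1.mul ((hx.pow 2).add h2)).div (tendsto_const_nhds.add (h3.mul (hx.pow 2)))
      (den_ne (ha s (by omega)) hx0)

/-- the limits are locally uniform -/
theorem bb_loc {ι : Type*} {F : Filter ι} {W A : ι → ℕ → ℂ} {w a : ℕ → ℂ} (s : ℕ) (hw : ∀ i < s, ‖w i‖ = 1)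
    (ha : ∀ i < s, ‖a i‖ < 1) (hW : ∀ i < s, Tendsto (fun n => W n i) F (𝓝 (w i)))
    (hA : ∀ i < s, Tendsto (fun n => A n i) F (𝓝 (a i))) :
    TendstoLocallyUniformlyOn (fun n => BB (W n) (A n) s) (BB w a s) F (ball 0 1) := by
  rw [tendstoLocallyUniformlyOn_iff_forall_tendsto]
  intro x hx
  have h1 : Tendsto (fun y : ι × ℂ => BB (W y.1) (A y.1) s y.2) (F ×ˢ 𝓝[ball 0 1] x) (𝓝 (BB w a s x)) :=
    bb_tend s hw ha (fun i hi => (hW i hi).comp tendsto_fst) (fun i hi => (hA i hi).comp tendsto_fst)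
      (tendsto_snd.mono_right nhdsWithin_le_nhds) (mem_ball_zero_iff.1 hx)
  have h2 : Tendsto (fun y : ι × ℂ => BB w a s y.2) (F ×ˢ 𝓝[ball 0 1] x) (𝓝 (BB w a s x)) :=
    ((bb_d hw ha).continuousOn x hx).tendsto.comp tendsto_snd
  exact (h2.prodMk_nhds h1).mono_right (nhds_le_uniformity _)

end Pool.Agent.H21.BB
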